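import Mathlib

/-!
# Primitive positive constructions: definitions
-/

set_option autoImplicit false

namespace Pool.Agent.Y564.PPC

/-- A relational structure: relation symbols with arities, a domain, and the relations. -/
structure Str : Type 1 where
  Sym : Type
  ar : Sym → ℕ
  Dom : Type
  rel : (s : Sym) → Set (Fin (ar s) → Dom)

/-- Atomic formulas over the signature of `A` in the variables `V`. -/
inductive Atom (A : Str) (V : Type) : Type
  | eq (x y : V)
  | rel (s : A.Sym) (v : Fin (A.ar s) → V)

/-- The atomic formula holds under the assignment `e`. -/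
def Atom.Holds {A : Str} {V : Type} (e : V → A.Dom) : Atom A V → Prop
  | .eq x y => e x = e y
  | .rel s v => (fun j => e (v j)) ∈ A.rel s

/-- The relation `R` on the domain of `A`, with coordinates indexed by `K`, is definable by a
primitive positive formula: there are finitely many existentially quantified variables and a finite
set `Φ` of atomic formulas such that `R` consists of the tuples `x` for which some values `y` of
the quantified variables satisfy all members of `Φ`. -/
def PPDefinable (A : Str) {K : Type} (R : Set (K → A.Dom)) : Prop :=
  ∃ (m : ℕ) (Φ : Set (Atom A (K ⊕ Fin m))), Φ.Finite ∧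
    R = {x | ∃ y : Fin m → A.Dom, ∀ φ ∈ Φ, φ.Holds (Sum.elim x y)}

/-- `B` has a pp-construction from `A`: for some `d ≥ 1` there is a structure with domain `A ^ d`
and with the signature of `B`, whose relations `P s` are definable in `A` by primitive positive
formulas (when read as relations on `A`), and which is homomorphically equivalent to `B`. -/
def PPConstructs (A B : Str) : Prop :=
  ∃ (d : ℕ) (_ : 1 ≤ d) (P : (s : B.Sym) → Set (Fin (B.ar s) → (Fin d → A.Dom))),
    (∀ s, PPDefinable A {x : Fin (B.ar s) × Fin d → A.Dom | (fun i j => x (i, j)) ∈ P s}) ∧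
    (∃ f : B.Dom → (Fin d → A.Dom), ∀ s, ∀ v ∈ B.rel s, (fun i => f (v i)) ∈ P s) ∧
    (∃ g : (Fin d → A.Dom) → B.Dom, ∀ s, ∀ v ∈ P s, (fun i => g (v i)) ∈ B.rel s)

/-- The two-element path: domain with two elements `0, 1` and the binary relation `{(0, 1)}`. -/
def P2 : Str where
  Sym := Unit
  ar _ := 2
  Dom := Fin 2
  rel _ := {v | v 0 = 0 ∧ v 1 = 1}

end Pool.Agent.Y564.PPC
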