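import Pool.Agent.Y564.PPC.Defs

set_option autoImplicit false

namespace Pool.Agent.Y564.PPC

/-- polymorphisms with arguments indexed by `X` -/
def Poly (A : Str) {X : Type} (f : (X → A.Dom) → A.Dom) : Prop :=
  ∀ s, ∀ M : X → (Fin (A.ar s) → A.Dom), (∀ x, M x ∈ A.rel s) →
    (fun i => f (fun x => M x i)) ∈ A.rel s

/-- homomorphism from the canonical pp-power -/
def Can (A B : Str) : Prop :=
  ∃ h : ((B.Dom → A.Dom) → A.Dom) → B.Dom, ∀ s : B.Sym,
    ∀ g : (B.rel s → A.Dom) → A.Dom, Poly A g →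
      (fun i => h (fun y => g (fun r => y (r.1 i)))) ∈ B.rel s

theorem ppdef_closed {A : Str} {K : Type} {R : Set (K → A.Dom)} (hR : PPDefinable A R)
    {X : Type} {g : (X → A.Dom) → A.Dom} (hg : Poly A g) {x : X → K → A.Dom}
    (hx : ∀ r, x r ∈ R) : (fun k => g (fun r => x r k)) ∈ R := by
  obtain ⟨m, Φ, -, rfl⟩ := hR
  choose y hy using hx
  refine ⟨fun j => g (fun r => y r j), fun φ hφ => ?_⟩
  have key : ∀ v : K ⊕ Fin m, Sum.elim (fun k => g (fun r => x r k)) (fun j => g (fun r => y r j)) v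
      = g (fun r => Sum.elim (x r) (y r) v) := by
    rintro (v | v) <;> rfl
  cases φ with
  | eq u v =>
    change Sum.elim _ _ u = Sum.elim _ _ v
    rw [key, key]
    congr 1
    funext r
    exact hy r _ hφ
  | rel s v =>
    change (fun j => Sum.elim _ _ (v j)) ∈ A.rel s
    simp only [key]
    exact hg s (fun r i => Sum.elim (x r) (y r) (v i)) (fun r => hy r _ hφ)

theorem can_of_ppc {A B : Str} (h : PPConstructs A B) : Can A B := by
  obtain ⟨d, -, P, hP, ⟨f, hf⟩, g', hg'⟩ := h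
  refine ⟨fun F => g' (fun j => F (fun b => f b j)), fun s g hg => ?_⟩
  apply hg' s (fun i j => g (fun r => f (r.1 i) j))
  exact ppdef_closed (hP s) hg (x := fun (r : B.rel s) (p : Fin (B.ar s) × Fin d) => f (r.1 p.1) p.2)
    (fun r => hf s r.1 r.2)

theorem ppc_of_can {A B : Str} [Finite A.Sym] [Finite A.Dom] [Nonempty A.Dom] [Finite B.Dom]
    (h : Can A B) : PPConstructs A B := by
  classical
  obtain ⟨h, hh⟩ := h
  have : Fintype (B.Dom → A.Dom) := Fintype.ofFinite _
  let e : Fin (Fintype.card (B.Dom → A.Dom)) ≃ (B.Dom → A.Dom) :=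
    (Fintype.equivFin (B.Dom → A.Dom)).symm
  refine ⟨Fintype.card (B.Dom → A.Dom), Fintype.card_pos, fun s => {v | ∃ g, Poly A g ∧
    ∀ i, v i = fun j => g (fun r : B.rel s => e j (r.1 i))}, ?_, ?_, ?_⟩
  · intro s
    have : Fintype (B.rel s → A.Dom) := Fintype.ofFinite _
    let e' : (B.rel s → A.Dom) ≃ Fin (Fintype.card (B.rel s → A.Dom)) :=
      Fintype.equivFin (B.rel s → A.Dom)
    let V := (Fin (B.ar s) × Fin (Fintype.card (B.Dom → A.Dom))) ⊕
      Fin (Fintype.card (B.rel s → A.Dom))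
    let Φ1 : (Fin (B.ar s) × Fin (Fintype.card (B.Dom → A.Dom))) → Atom A V := fun p =>
      .eq (Sum.inl p) (Sum.inr (e' (fun r => e p.2 (r.1 p.1))))
    let Φ2 : (Σ t : A.Sym, (B.rel s → A.rel t)) → Atom A V := fun M =>
      .rel M.1 (fun i => Sum.inr (e' (fun r => (M.2 r).1 i)))
    refine ⟨_, Set.range Φ1 ∪ Set.range Φ2, (Set.finite_range _).union (Set.finite_range _), ?_⟩
    ext x
    constructor
    · rintro ⟨g, hg, hx⟩
      refine ⟨fun z => g (e'.symm z), ?_⟩
      rintro φ (⟨p, rfl⟩ | ⟨M, rfl⟩)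
      · change x p = g (e'.symm (e' _))
        rw [Equiv.symm_apply_apply]
        exact congrFun (hx p.1) p.2
      · change (fun i => g (e'.symm (e' _))) ∈ A.rel M.1
        simp only [Equiv.symm_apply_apply]
        exact hg M.1 (fun r => (M.2 r).1) (fun r => (M.2 r).2)
    · rintro ⟨y, hy⟩
      refine ⟨fun z => y (e' z), ?_, ?_⟩
      · intro t M hM
        exact hy _ (Or.inr ⟨⟨t, fun r => ⟨M r, hM r⟩⟩, rfl⟩)
      · intro i
        funext j
        exact hy _ (Or.inl ⟨(i, j), rfl⟩)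
  · refine ⟨fun b j => e j b, fun s v hv => ⟨fun z => z ⟨v, hv⟩, ?_, fun i => rfl⟩⟩
    intro t M hM
    exact hM ⟨v, hv⟩
  · refine ⟨fun w => h (fun y => w (e.symm y)), ?_⟩
    rintro s v ⟨g, hg, hv⟩
    have h1 := hh s g hg
    have h2 : (fun i => h (fun y => v i (e.symm y))) =
        (fun i => h (fun y => g (fun r : B.rel s => y (r.1 i)))) := by
      funext i
      congr 1
      funext y
      rw [hv i]
      simp only [Equiv.apply_symm_apply]
    rw [h2]
    exact h1

theorem can_trans {A B C : Str} (h1 : Can A B) (h2 : Can B C) : Can A C := by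
  obtain ⟨h, hh⟩ := h1
  obtain ⟨h', hh'⟩ := h2
  refine ⟨fun G => h' (fun b => h (fun y => G (fun c => y (b c)))), fun s g hg => ?_⟩
  have h3 : Poly B (fun b : C.rel s → B.Dom => h (fun y => g (fun r => y (b r)))) := by
    intro t M hM
    exact hh t (fun z => g (fun x => z ⟨M x, hM x⟩))
      (fun u N hN => hg u (fun x => N ⟨M x, hM x⟩) (fun x => hN _))
  exact hh' s _ h3

/-- Reduct to a set of symbols. -/
def reduct (B : Str) (T : Set B.Sym) : Str where
  Sym := T
  ar t := B.ar t.1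
  Dom := B.Dom
  rel t := B.rel t.1

theorem can_compact {A B : Str} [Finite A.Dom] [Finite B.Dom]
    (h : ∀ T : Set B.Sym, T.Finite → Can A (reduct B T)) : Can A B := by
  by_contra hcon
  have h1 : ∀ h : ((B.Dom → A.Dom) → A.Dom) → B.Dom, ∃ s : B.Sym,
      ¬ ∀ g : (B.rel s → A.Dom) → A.Dom, Poly A g →
        (fun i => h (fun y => g (fun r => y (r.1 i)))) ∈ B.rel s := by
    intro h
    by_contra h2
    push Not at h2
    exact hcon ⟨h, h2⟩
  choose s hs using h1
  obtain ⟨f, hf⟩ := h (Set.range s) (Set.finite_range s)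
  exact hs f (fun g hg => hf ⟨s f, f, rfl⟩ g hg)

/-- Codes of finite structures. -/
def Code : Type :=
  Σ (m : ℕ) (n : ℕ) (ar : Fin m → ℕ), ∀ i, Set (Fin (ar i) → Fin (n + 1))

instance : Countable Code := by
  unfold Code
  infer_instance

/-- The structure with a given code. -/
def toStr (c : Code) : Str where
  Sym := Fin c.1
  ar := c.2.2.1
  Dom := Fin (c.2.1 + 1)
  rel := c.2.2.2

/-- A copy of a finite reduct. -/
theorem exists_code' (B : Str) (T : Set B.Sym) (hT : T.Finite) [Finite B.Dom] [Nonempty B.Dom] :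
    ∃ c : Code, PPConstructs B (toStr c) ∧ Can (toStr c) (reduct B T) := by
  classical
  have : Finite T := hT
  have : Fintype T := Fintype.ofFinite _
  have : Fintype B.Dom := Fintype.ofFinite _
  obtain ⟨n, hn⟩ : ∃ n, Fintype.card B.Dom = n + 1 :=
    ⟨Fintype.card B.Dom - 1, by have := Fintype.card_pos (α := B.Dom); omega⟩
  let t : Fin (Fintype.card T) ≃ T := (Fintype.equivFin T).symm
  let e : B.Dom ≃ Fin (n + 1) := Fintype.equivFinOfCardEq hn
  refine ⟨⟨Fintype.card T, n, fun i => B.ar (t i).1, fun i =>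
    {v | (fun j => e.symm (v j)) ∈ B.rel (t i).1}⟩, ?_, ?_⟩
  · refine ⟨1, le_rfl, fun i => {v | (fun j => v j 0) ∈ B.rel (t i).1}, ?_, ?_, ?_⟩
    · intro i
      refine ⟨0, {Atom.rel (t i).1 (fun j => Sum.inl (j, 0))}, Set.finite_singleton _, ?_⟩
      ext x
      constructor
      · intro hx
        refine ⟨fun j => j.elim0, ?_⟩
        rintro φ rfl
        exact hx
      · rintro ⟨y, hy⟩
        exact hy _ rfl
    · exact ⟨fun x _ => e.symm x, fun i v hv => hv⟩
    · refine ⟨fun w => e (w 0), fun i v hv => ?_⟩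
      change (fun j => e.symm (e (v j 0))) ∈ B.rel (t i).1
      simp only [Equiv.symm_apply_apply]
      exact hv
  · -- `Can` for isomorphic structures: use the projection
    refine ⟨fun F => e.symm (F (fun b => e b)), ?_⟩
    intro s g hg
    obtain ⟨i, rfl⟩ := t.surjective s
    have h1 := hg i (fun r => fun j => e (r.1 j)) (by
      intro r
      change (fun j => e.symm (e (r.1 j))) ∈ B.rel (t i).1
      simp only [Equiv.symm_apply_apply]
      exact r.2)
    exact h1

theorem poly_max {X : Type} (a b : X) :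
    Poly P2 (X := X) (fun z : X → Fin 2 => (max (z a) (z b) : Fin 2)) := by
  intro s M hM
  have ha : M a (0 : Fin 2) = (0 : Fin 2) ∧ M a (1 : Fin 2) = (1 : Fin 2) := hM a
  have hb : M b (0 : Fin 2) = (0 : Fin 2) ∧ M b (1 : Fin 2) = (1 : Fin 2) := hM b
  constructor
  · change (max (M a (0 : Fin 2) : Fin 2) (M b (0 : Fin 2) : Fin 2) : Fin 2) = 0
    rw [ha.1, hb.1]
    rfl
  · change (max (M a (1 : Fin 2) : Fin 2) (M b (1 : Fin 2) : Fin 2) : Fin 2) = 1
    rw [ha.2, hb.2]
    rfl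

theorem not_can_K3 : ∃ c : Code, ¬ Can P2 (toStr c) := by
  refine ⟨⟨1, 2, fun _ => 2, fun _ => {v | v 0 ≠ v 1}⟩, ?_⟩
  rintro ⟨h, hh⟩
  -- the symmetric operation `max` preserves `P2`
  let K : Set (Fin 2 → Fin 3) := {v | v 0 ≠ v 1}
  let a : K := ⟨![0, 1], by simp [K]⟩
  let b : K := ⟨![1, 0], by simp [K]⟩
  let h' : ((Fin 3 → Fin 2) → Fin 2) → Fin 3 := h
  have h1 : (fun i : Fin 2 => h' (fun y => max (y (a.1 i)) (y (b.1 i)))) ∈ K :=
    hh (0 : Fin 1) (fun z : K → Fin 2 => (max (z a) (z b) : Fin 2)) (poly_max a b)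
  apply h1
  change h' (fun y => max (y (a.1 0)) (y (b.1 0))) = h' (fun y => max (y (a.1 1)) (y (b.1 1)))
  congr 1
  funext y
  exact max_comm _ _

theorem main : ∃ C : ℕ → Str,
    (∀ i, Finite (C i).Sym ∧ Finite (C i).Dom ∧ Nonempty (C i).Dom) ∧
    ∀ B : Str, Finite B.Dom → Nonempty B.Dom →
      (¬ PPConstructs P2 B ↔ ∃ i, PPConstructs B (C i)) := by
  classical
  have inst1 : Finite P2.Sym := inferInstanceAs (Finite Unit)
  have inst2 : Finite P2.Dom := inferInstanceAs (Finite (Fin 2))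
  have inst3 : Nonempty P2.Dom := inferInstanceAs (Nonempty (Fin 2))
  have inst4 : ∀ c : Code, Finite (toStr c).Dom := fun c => inferInstanceAs (Finite (Fin _))
  let S : Set Code := {c | ¬ Can P2 (toStr c)}
  have hS : S.Nonempty := not_can_K3
  obtain ⟨f, hf⟩ : ∃ f : ℕ → Code, S = Set.range f := (Set.to_countable S).exists_eq_range hS
  refine ⟨fun i => toStr (f i), fun i => ⟨inferInstanceAs (Finite (Fin _)),
    inferInstanceAs (Finite (Fin _)), inferInstanceAs (Nonempty (Fin (_ + 1)))⟩, ?_⟩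
  intro B hB1 hB2
  constructor
  · intro h
    have h1 : ¬ Can P2 B := fun h2 => h (ppc_of_can h2)
    have h2 : ∃ T : Set B.Sym, T.Finite ∧ ¬ Can P2 (reduct B T) := by
      by_contra h3
      push Not at h3
      exact h1 (can_compact h3)
    obtain ⟨T, hT, h3⟩ := h2
    obtain ⟨c, hc1, hc2⟩ := exists_code' B T hT
    have h4 : c ∈ S := fun h5 => h3 (can_trans h5 hc2)
    rw [hf] at h4
    obtain ⟨i, rfl⟩ := h4
    exact ⟨i, hc1⟩
  · rintro ⟨i, hi⟩ h
    have h1 : f i ∈ S := by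
      rw [hf]
      exact ⟨i, rfl⟩
    exact h1 (can_trans (can_of_ppc h) (can_of_ppc hi))

end Pool.Agent.Y564.PPC
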